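import Pool.Agent.H929.BW.Stm

/-!
# BW-PIECEE: two pieces, emptiness
-/

set_option autoImplicit false

namespace Pool.Agent.H980.BW

open Finset Pool.Agent.TH3.IR Pool.Agent.Y55.Col Pool.Agent.H929.BW

/-- emptiness for all real slopes with sums `a ≥ 1` -/
theorem GE_real {ι : Type} {n : ℕ} {w : ι → ℕ} {a H : ℝ} (h : GE n w a H) (ha : 1 ≤ a)
    {L R : ℝ} {μ ν : Fin n → ℝ} (hW : R - L = a * H) (hs : ∀ i, μ i + ν i = a) :
    EmpS w (RegS L R μ ν) := by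
  have h1 : EmpS w (RegS L R (fun i => μ i - (⌊μ i⌋ : ℝ)) (fun i => ν i + (⌊μ i⌋ : ℝ))) := by
    apply h L R _ _
    · intro i
      have := Int.floor_le (μ i)
      linarith
    · intro i
      have h1 := Int.lt_floor_add_one (μ i)
      have h2 := hs i
      linarith
    · exact hW
    · intro i
      have h2 := hs i
      linarith
  apply h1.comap 1 (Or.inl rfl) (fun i => -⌊μ i⌋) 0
  rintro ⟨x, y⟩ ⟨h0, h2, h3⟩
  refine ⟨h0, ?_, ?_⟩
  · dsimp only at h2 h3 ⊢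
    push_cast
    simp only [sub_mul, neg_mul, Finset.sum_sub_distrib, Finset.sum_neg_distrib]
    linarith
  · dsimp only at h2 h3 ⊢
    push_cast
    simp only [add_mul, neg_mul, Finset.sum_add_distrib, Finset.sum_neg_distrib]
    linarith

theorem regS_finite {n : ℕ} {c : ℝ} (hc : 0 < c) {L R : ℝ} {μ ν : Fin n → ℝ}
    (hμ : ∀ i, 0 ≤ μ i) (hν : ∀ i, 0 ≤ ν i) (hs : ∀ i, μ i + ν i = c) :
    (RegS L R μ ν).Finite := by
  have hfin : ((Set.Icc ⌊L⌋ ⌈R⌉) ×ˢ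
      (Set.univ.pi fun _ : Fin n => Set.Icc (0 : ℤ) ⌈(R - L) / c⌉)).Finite :=
    (Set.finite_Icc _ _).prod (Set.Finite.pi fun _ => Set.finite_Icc _ _)
  apply hfin.subset
  rintro ⟨x, y⟩ ⟨h0, h2, h3⟩
  dsimp only at h0 h2 h3
  have hy : ∀ i, 0 ≤ (y i : ℝ) := fun i => by exact_mod_cast h0 i
  have s1 : 0 ≤ ∑ i, μ i * (y i : ℝ) := Finset.sum_nonneg fun i _ => mul_nonneg (hμ i) (hy i)
  have s2 : 0 ≤ ∑ i, ν i * (y i : ℝ) := Finset.sum_nonneg fun i _ => mul_nonneg (hν i) (hy i)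
  refine ⟨⟨?_, ?_⟩, ?_⟩
  · have h4 : (⌊L⌋ : ℝ) ≤ (x : ℝ) := (Int.floor_le L).trans (by linarith)
    exact_mod_cast h4
  · have h4 : (x : ℝ) ≤ (⌈R⌉ : ℝ) := le_trans (by linarith) (Int.le_ceil R)
    exact_mod_cast h4
  · intro i _
    refine ⟨h0 i, ?_⟩
    have h4 : (y i : ℝ) ≤ (R - L) / c := by
      rw [le_div_iff₀ hc]
      have h5 : ∑ j, c * (y j : ℝ) ≤ R - L := by
        have h6 : ∑ j, c * (y j : ℝ) = ∑ j, μ j * (y j : ℝ) + ∑ j, ν j * (y j : ℝ) := by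
          rw [← Finset.sum_add_distrib]
          refine Finset.sum_congr rfl fun j _ => ?_
          rw [← add_mul, hs j]
        rw [h6]
        linarith
      have h6 : c * (y i : ℝ) ≤ ∑ j, c * (y j : ℝ) :=
        Finset.single_le_sum (f := fun j => c * (y j : ℝ))
          (fun j _ => mul_nonneg hc.le (hy j)) (Finset.mem_univ i)
      linarith
    have h5 : (y i : ℝ) ≤ (⌈(R - L) / c⌉ : ℝ) := h4.trans (Int.le_ceil _)
    exact_mod_cast h5

theorem t_PIECEE (h : S_CUTE) : S_PIECEE := by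
  intro ι κ _ _ n w v a b H ha hb hw hv L R μ ν hμ hν hW hs
  have hfin : (RegS L R μ ν).Finite := regS_finite (c := a + b) (by linarith) hμ hν hs
  obtain ⟨S, hS⟩ : ∃ S : Set (ℤ × (Fin n → ℤ)), S = {m | m ∈ RegS L R μ ν ∧
      (m.1 : ℝ) + ∑ i, (a - μ i) * (m.2 i : ℝ) ≤ L + a * H} := ⟨_, rfl⟩
  obtain ⟨T, hT⟩ : ∃ T : Set (ℤ × (Fin n → ℤ)), T = {m | m ∈ RegS L R μ ν ∧
      L + a * H < (m.1 : ℝ) + ∑ i, (a - μ i) * (m.2 i : ℝ)} := ⟨_, rfl⟩
  have hSf : S.Finite := by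
    rw [hS]
    exact hfin.subset fun m hm => hm.1
  have hTf : T.Finite := by
    rw [hT]
    exact hfin.subset fun m hm => hm.1
  have hST : RegS L R μ ν = S ∪ T := by
    rw [hS, hT]
    ext m
    constructor
    · intro hm
      rcases le_or_gt ((m.1 : ℝ) + ∑ i, (a - μ i) * (m.2 i : ℝ)) (L + a * H) with h1 | h1
      · exact Or.inl ⟨hm, h1⟩
      · exact Or.inr ⟨hm, h1⟩
    · rintro (hm | hm)
      · exact hm.1
      · exact hm.1
  rw [hST]
  apply h ι κ (Fin n) w v S T hSf hTf (fun i => a - μ i)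
  · intro m hm m' hm'
    rw [hS] at hm
    rw [hT] at hm'
    exact lt_of_le_of_lt hm.2 hm'.2
  · have h1 : EmpS w (RegS L (L + a * H) μ (fun i => a - μ i)) :=
      GE_real hw ha (by ring) (fun i => by ring)
    apply h1.mono
    rintro ⟨x, y⟩ hm
    rw [hS] at hm
    obtain ⟨⟨h0, h2, h3⟩, h4⟩ := hm
    refine ⟨h0, h2, ?_⟩
    dsimp only at h4 ⊢
    linarith
  · have h1 : EmpS v (RegS (L + a * H) R (fun i => μ i - a) ν) :=
      GE_real hv hb (by linarith) (fun i => by have := hs i; linarith)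
    apply h1.mono
    rintro ⟨x, y⟩ hm
    rw [hT] at hm
    obtain ⟨⟨h0, h2, h3⟩, h4⟩ := hm
    refine ⟨h0, ?_, h3⟩
    dsimp only at h4 ⊢
    have h5 : ∑ i, (μ i - a) * (y i : ℝ) = - ∑ i, (a - μ i) * (y i : ℝ) := by
      rw [← Finset.sum_neg_distrib]
      refine Finset.sum_congr rfl fun i _ => ?_
      ring
    rw [h5]
    linarith

end Pool.Agent.H980.BW
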