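import Pool.Agent.H929.BW.Stm

/-!
# BW-RECE: the recursion, emptiness
-/

set_option autoImplicit false

namespace Pool.Agent.H980.BW

open Finset Pool.Agent.TH3.IR Pool.Agent.Y55.Col Pool.Agent.H929.BW

/-- equal multiplicities in a piece -/
theorem piece (h1 : S_NODE) {n k M : ℕ} {a H : ℝ} (ha : 5 / 2 ≤ a) (hk : 2 ^ (n + 1) * a ≤ k)
    (_hH : 0 < H) (hM : a * H ^ (n + 1) < k * (M : ℝ) ^ (n + 1)) :
    GE n (fun _ : Fin k => M) a H := by
  have ha0 : 0 < a := by linarith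
  have hk0 : (0 : ℝ) < k := lt_of_lt_of_le (by positivity) hk
  have hka : 0 < (k : ℝ) / a := div_pos hk0 ha0
  obtain ⟨ρ, hρ0, hρ⟩ : ∃ ρ : ℝ, 0 ≤ ρ ∧ ρ ^ (n + 1) = (k : ℝ) / a := by
    refine ⟨((k : ℝ) / a) ^ ((1 : ℝ) / ((n + 1 : ℕ) : ℝ)), Real.rpow_nonneg hka.le _, ?_⟩
    rw [one_div]
    exact Real.rpow_inv_natCast_pow hka.le (Nat.succ_ne_zero n)
  have hρ2 : 2 ≤ ρ := by
    by_contra hcon
    push Not at hcon
    have h3 : ρ ^ (n + 1) < 2 ^ (n + 1) := pow_lt_pow_left₀ hcon hρ0 (Nat.succ_ne_zero n)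
    rw [hρ] at h3
    have h4 : (2 : ℝ) ^ (n + 1) ≤ (k : ℝ) / a := by
      rw [le_div_iff₀ ha0]
      exact hk
    linarith
  have hρp : 0 < ρ := by linarith
  have hka2 : ρ ^ (n + 1) * a = k := by
    rw [hρ, div_mul_cancel₀ _ ha0.ne']
  apply h1 (Fin k) n _ a H ρ hρ2 ha
  rw [hka2]
  intro L R μ ν hμ hν hW hs
  apply EmpS_final hμ hν
  · intro i
    rw [hs i, Fintype.card_fin]
  · rw [hW, Finset.sum_const, Finset.card_univ, Fintype.card_fin, nsmul_eq_mul]
    apply mul_lt_mul_of_pos_left _ hk0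
    apply lt_of_pow_lt_pow_left₀ (n + 1) (Nat.cast_nonneg M)
    rw [div_pow, hρ, div_div_eq_mul_div, div_lt_iff₀ hk0]
    linarith

theorem emp_one (E m : ℕ) : Emp E m (Multiset.replicate 1 m) := by
  refine ⟨Unit, inferInstance, fun _ => m, fun _ => 0, ?_, ?_⟩
  · simp
  · intro F hF hv
    exact one le_rfl _ hF (hv ())

/-- the difference of powers -/
theorem pow_sub_le {x y : ℝ} (hy : 0 ≤ y) (hxy : y ≤ x) (n : ℕ) :
    x ^ (n + 1) - y ^ (n + 1) ≤ (n + 1) * x ^ n * (x - y) := by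
  induction n with
  | zero => simp
  | succ n ih =>
    have hx : 0 ≤ x := hy.trans hxy
    have h1 : y ^ (n + 1) ≤ x ^ (n + 1) := pow_le_pow_left₀ hy hxy _
    have h2 : x ^ (n + 1 + 1) - y ^ (n + 1 + 1) =
        x * (x ^ (n + 1) - y ^ (n + 1)) + y ^ (n + 1) * (x - y) := by ring
    have h3 : x * (x ^ (n + 1) - y ^ (n + 1)) ≤ x * ((n + 1) * x ^ n * (x - y)) :=
      mul_le_mul_of_nonneg_left ih hx
    have h4 : y ^ (n + 1) * (x - y) ≤ x ^ (n + 1) * (x - y) :=
      mul_le_mul_of_nonneg_right h1 (by linarith)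
    rw [h2]
    push_cast
    have h5 : x * ((n + 1) * x ^ n * (x - y)) + x ^ (n + 1) * (x - y) =
        ((n : ℝ) + 1 + 1) * x ^ (n + 1) * (x - y) := by ring
    linarith

theorem rece_aux (h1 : S_NODE) (h2 : S_PIECEE) (n m : ℕ) (g Λ T : ℝ) (hn : 1 ≤ n) (hm : 1 ≤ m)
    (hg : (m : ℝ) ≤ g) (hΛ : 1 ≤ Λ) (hcl : ClE n m g Λ T) (j : ℕ) :
    ∀ (β H : ℝ) (r : ℕ), 21 / 4 ≤ β → β ≤ 3 ^ (n + 2) → 2 * g ≤ H → H ≤ 2 * g * T →
    H ≤ 2 ^ j * (12 * (g + Λ)) →
    β * H ^ (n + 1) + AE n * Λ * H ^ n + FE n m g Λ ≤ r * g ^ (n + 1) →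
    ∃ (ι : Type) (_ : Fintype ι) (w s : ι → ℕ), GE n w β H ∧
      (∀ i, Emp (n + 1) (w i) (Multiset.replicate (s i) m)) ∧ ∑ i, s i = r := by
  have hm1 : (1 : ℝ) ≤ m := by exact_mod_cast hm
  have hg1 : 1 ≤ g := hm1.trans hg
  have hg0 : 0 < g := by linarith
  have hm0 : (0 : ℝ) < m := by linarith
  have hgm : 1 ≤ (g / m) ^ (n + 1) := one_le_pow₀ (by rw [le_div_iff₀ hm0]; linarith)
  have hF0 : 0 ≤ FE n m g Λ := by
    unfold FE
    have h3 : 0 ≤ (g / m) ^ (n + 1) - 1 := by linarith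
    have h4 : 0 ≤ g + Λ := by linarith
    positivity
  have hA0 : 0 < AE n * Λ := by
    unfold AE
    have : 0 < Λ := by linarith
    positivity
  -- small heights
  have small : ∀ (β H : ℝ) (r : ℕ), 21 / 4 ≤ β → β ≤ 3 ^ (n + 2) → 2 * g ≤ H →
      H ≤ 12 * (g + Λ) →
      β * H ^ (n + 1) + AE n * Λ * H ^ n + FE n m g Λ ≤ r * g ^ (n + 1) →
      ∃ (ι : Type) (_ : Fintype ι) (w s : ι → ℕ), GE n w β H ∧
        (∀ i, Emp (n + 1) (w i) (Multiset.replicate (s i) m)) ∧ ∑ i, s i = r := by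
    intro β H r hβ hβ' hH hH0 hr
    have hHp : 0 < H := by linarith
    have hAH : 0 < AE n * Λ * H ^ n := mul_pos hA0 (pow_pos hHp n)
    have hgN : 0 < g ^ (n + 1) := pow_pos hg0 _
    refine ⟨Fin r, inferInstance, fun _ => m, fun _ => 1, ?_, fun _ => emp_one _ _, by simp⟩
    apply piece h1 (by linarith) _ hHp _
    · have h3 : (2 * g) ^ (n + 1) ≤ H ^ (n + 1) := pow_le_pow_left₀ (by linarith) hH _
      have h4 : β * (2 * g) ^ (n + 1) ≤ β * H ^ (n + 1) :=
        mul_le_mul_of_nonneg_left h3 (by linarith)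
      have h5 : (2 ^ (n + 1) * β) * g ^ (n + 1) ≤ r * g ^ (n + 1) := by
        rw [mul_pow] at h4
        have h6 : 2 ^ (n + 1) * β * g ^ (n + 1) = β * (2 ^ (n + 1) * g ^ (n + 1)) := by ring
        rw [h6]
        linarith
      exact le_of_mul_le_mul_right h5 hgN
    · have h3 : H ^ (n + 1) ≤ (12 * (g + Λ)) ^ (n + 1) := pow_le_pow_left₀ hHp.le hH0 _
      have h4 : β * H ^ (n + 1) ≤ 3 ^ (n + 2) * (12 * (g + Λ)) ^ (n + 1) :=
        mul_le_mul hβ' h3 (by positivity) (by positivity)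
      have h5 : β * H ^ (n + 1) * ((g / m) ^ (n + 1) - 1) ≤ FE n m g Λ := by
        unfold FE
        exact mul_le_mul_of_nonneg_right h4 (by linarith)
      have h6 : β * H ^ (n + 1) * (g / m) ^ (n + 1) < r * g ^ (n + 1) := by linarith
      rw [div_pow] at h6
      have h7 : β * H ^ (n + 1) * (g ^ (n + 1) / (m : ℝ) ^ (n + 1)) =
          (β * H ^ (n + 1) / (m : ℝ) ^ (n + 1)) * g ^ (n + 1) := by ring
      rw [h7] at h6
      have h8 := lt_of_mul_lt_mul_right h6 hgN.le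
      rwa [div_lt_iff₀ (pow_pos hm0 _)] at h8
  induction j with
  | zero =>
    intro β H r hβ hβ' hH hHT hHj hr
    exact small β H r hβ hβ' hH (by linarith) hr
  | succ j ih =>
    intro β H r hβ hβ' hH hHT hHj hr
    rcases le_or_gt H (12 * (g + Λ)) with hH0 | hH0
    · exact small β H r hβ hβ' hH hH0 hr
    have hHp : 0 < H := by linarith
    obtain ⟨t, ht⟩ : ∃ t : ℕ, t = ⌊H / (2 * g)⌋₊ := ⟨_, rfl⟩
    have h2g : 0 < 2 * g := by linarith
    have ht1 : 1 ≤ t := by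
      rw [ht]
      apply Nat.le_floor
      rw [Nat.cast_one, le_div_iff₀ h2g]
      linarith
    have htH : (t : ℝ) ≤ H / (2 * g) := by
      rw [ht]
      exact Nat.floor_le (by positivity)
    have htH2 : H / (2 * g) < t + 1 := by
      rw [ht]
      exact Nat.lt_floor_add_one _
    have htT : (t : ℝ) ≤ T := by
      apply htH.trans
      rw [div_le_iff₀ h2g]
      linarith
    rw [le_div_iff₀ h2g] at htH
    rw [div_lt_iff₀ h2g] at htH2
    have htg : t * g ≤ H / 2 := by linarith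
    have htg2 : H / 2 - g < t * g := by linarith
    obtain ⟨M, hM, hMt⟩ := hcl t ht1 htT
    obtain ⟨u, hu⟩ : ∃ u : ℝ, u = t * g - 2 * Λ := ⟨_, rfl⟩
    have huM : u < M := by linarith
    have hu2 : u ≤ H / 2 := by linarith
    have hu3 : H / 3 ≤ u := by linarith
    have hu0 : 0 < u := by linarith
    have hHu2 : 2 ≤ H / u := by
      rw [le_div_iff₀ hu0]
      linarith
    have hHu3 : H / u ≤ 3 := by
      rw [div_le_iff₀ hu0]
      linarith
    have hHu0 : 0 < H / u := by positivity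
    obtain ⟨k, hk⟩ : ∃ k : ℕ, k = ⌊(β - 5 / 2) * (H / u) ^ (n + 1)⌋₊ := ⟨_, rfl⟩
    have hk1 : (k : ℝ) ≤ (β - 5 / 2) * (H / u) ^ (n + 1) := by
      rw [hk]
      apply Nat.floor_le
      have : 0 ≤ β - 5 / 2 := by linarith
      positivity
    have hk2 : (β - 5 / 2) * (H / u) ^ (n + 1) < k + 1 := by
      rw [hk]
      exact Nat.lt_floor_add_one _
    have hq0 : 0 < (H / u) ^ (n + 1) := by positivity
    have hq2 : (2 : ℝ) ^ (n + 1) ≤ (H / u) ^ (n + 1) := pow_le_pow_left₀ (by norm_num) hHu2 _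
    have hq3 : (H / u) ^ (n + 1) ≤ 3 ^ (n + 1) := pow_le_pow_left₀ hHu0.le hHu3 _
    have h2N : (4 : ℝ) ≤ 2 ^ (n + 1) := by
      calc (4 : ℝ) = 2 ^ 2 := by norm_num
        _ ≤ 2 ^ (n + 1) := pow_le_pow_right₀ (by norm_num) (by omega)
    obtain ⟨a, ha⟩ : ∃ a : ℝ, a = k / (H / u) ^ (n + 1) := ⟨_, rfl⟩
    have hak : a * (H / u) ^ (n + 1) = k := by
      rw [ha, div_mul_cancel₀ _ hq0.ne']
    have ha1 : a ≤ β - 5 / 2 := by
      rw [ha, div_le_iff₀ hq0]
      exact hk1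
    have ha2 : β - 11 / 4 < a := by
      rw [ha, lt_div_iff₀ hq0]
      have h3 : (β - 11 / 4) * (H / u) ^ (n + 1) =
          (β - 5 / 2) * (H / u) ^ (n + 1) - 1 / 4 * (H / u) ^ (n + 1) := by ring
      rw [h3]
      linarith
    have ha3 : 5 / 2 ≤ a := by linarith
    have haH : a * H ^ (n + 1) = k * u ^ (n + 1) := by
      rw [← hak, div_pow]
      field_simp
    have hk0 : (0 : ℝ) < k := by
      rw [← hak]
      have : 0 < a := by linarith
      positivity
    have hp1 : GE n (fun _ : Fin k => M) a H := by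
      apply piece h1 ha3 _ hHp _
      · rw [← hak, mul_comm]
        exact mul_le_mul_of_nonneg_left hq2 (by linarith)
      · rw [haH]
        exact mul_lt_mul_of_pos_left (pow_lt_pow_left₀ huM hu0.le (Nat.succ_ne_zero n)) hk0
    -- the main inequality
    have hkB : (k : ℝ) ≤ 3 ^ (n + 2) * 3 ^ (n + 1) := by
      apply hk1.trans
      apply mul_le_mul _ hq3 hq0.le (by positivity)
      linarith
    have hdiff : (k : ℝ) * ((t * g) ^ (n + 1) - u ^ (n + 1)) ≤ AE n * Λ * H ^ n / 2 := by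
      have h3 : (t * g) ^ (n + 1) - u ^ (n + 1) ≤ (n + 1) * (t * g) ^ n * (t * g - u) :=
        pow_sub_le hu0.le (by linarith) n
      have h4 : (t * g : ℝ) ^ n ≤ H ^ n / 2 := by
        have h5 : (t * g : ℝ) ^ n ≤ (H / 2) ^ n := pow_le_pow_left₀ (by positivity) htg n
        have h6 : (H / 2) ^ n ≤ H ^ n / 2 := by
          rw [div_pow]
          apply div_le_div_of_nonneg_left (by positivity) (by norm_num)
          calc (2 : ℝ) = 2 ^ 1 := by norm_num
            _ ≤ 2 ^ n := pow_le_pow_right₀ (by norm_num) hn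
        exact h5.trans h6
      have h5 : t * g - u = 2 * Λ := by linarith
      rw [h5] at h3
      have h6 : (t * g) ^ (n + 1) - u ^ (n + 1) ≤ (n + 1) * (H ^ n / 2) * (2 * Λ) := by
        apply h3.trans
        have : 0 ≤ 2 * Λ := by linarith
        apply mul_le_mul_of_nonneg_right _ this
        exact mul_le_mul_of_nonneg_left h4 (by positivity)
      have h7 : (k : ℝ) * ((t * g) ^ (n + 1) - u ^ (n + 1)) ≤
          k * ((n + 1) * (H ^ n / 2) * (2 * Λ)) := mul_le_mul_of_nonneg_left h6 hk0.le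
      have h8 : (k : ℝ) * ((n + 1) * (H ^ n / 2) * (2 * Λ)) ≤
          3 ^ (n + 2) * 3 ^ (n + 1) * ((n + 1) * (H ^ n / 2) * (2 * Λ)) := by
        apply mul_le_mul_of_nonneg_right hkB
        have : 0 < Λ := by linarith
        positivity
      apply (h7.trans h8).trans
      unfold AE
      apply le_of_eq
      ring
    have hhalf : AE n * Λ * (H / 2) ^ n ≤ AE n * Λ * H ^ n / 2 := by
      have h6 : (H / 2) ^ n ≤ H ^ n / 2 := by
        rw [div_pow]
        apply div_le_div_of_nonneg_left (by positivity) (by norm_num)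
        calc (2 : ℝ) = 2 ^ 1 := by norm_num
          _ ≤ 2 ^ n := pow_le_pow_right₀ (by norm_num) hn
      have h7 := mul_le_mul_of_nonneg_left h6 hA0.le
      linarith
    have hmain : 2 ^ (n + 1) * (β - a) * (H / 2) ^ (n + 1) + AE n * Λ * (H / 2) ^ n +
        FE n m g Λ ≤ (r - k * (t : ℝ) ^ (n + 1)) * g ^ (n + 1) := by
      have h3 : 2 ^ (n + 1) * (β - a) * (H / 2) ^ (n + 1) = β * H ^ (n + 1) - k * u ^ (n + 1) := by
        rw [← haH, div_pow]
        field_simp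
      rw [h3]
      have h4 : (r - k * (t : ℝ) ^ (n + 1)) * g ^ (n + 1) =
          r * g ^ (n + 1) - k * (t * g) ^ (n + 1) := by
        rw [mul_pow]
        ring
      rw [h4]
      have h5 : (k : ℝ) * ((t * g) ^ (n + 1) - u ^ (n + 1)) =
          k * (t * g) ^ (n + 1) - k * u ^ (n + 1) := by ring
      rw [h5] at hdiff
      linarith
    have hb0 : 5 / 2 ≤ β - a := by linarith
    have hb1 : β - a < 11 / 4 := by linarith
    have hrk : (k : ℝ) * (t : ℝ) ^ (n + 1) ≤ r := by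
      have h3 : 0 ≤ (r - k * (t : ℝ) ^ (n + 1)) * g ^ (n + 1) := by
        refine le_trans ?_ hmain
        have h4 : 0 ≤ β - a := by linarith
        have h5 : 0 ≤ AE n * Λ * (H / 2) ^ n := by positivity
        have h6 : 0 ≤ 2 ^ (n + 1) * (β - a) * (H / 2) ^ (n + 1) := by positivity
        linarith
      have h4 : 0 ≤ (r - k * (t : ℝ) ^ (n + 1)) := nonneg_of_mul_nonneg_left h3 (by positivity)
      linarith
    have hrk' : k * t ^ (n + 1) ≤ r := by exact_mod_cast hrk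
    obtain ⟨r', hr'⟩ : ∃ r' : ℕ, r = k * t ^ (n + 1) + r' := ⟨_, (Nat.add_sub_of_le hrk').symm⟩
    have hr'' : (r : ℝ) - k * (t : ℝ) ^ (n + 1) = r' := by
      rw [hr']
      push_cast
      ring
    rw [hr''] at hmain
    obtain ⟨ι', hι', w', s', hGE, hemp, hsum⟩ := ih (2 ^ (n + 1) * (β - a)) (H / 2) r'
      (by nlinarith)
      (by
        have h3 : (2 : ℝ) ^ (n + 1) ≤ 3 ^ (n + 1) :=
          pow_le_pow_left₀ (by norm_num) (by norm_num) _
        have h4 : (3 : ℝ) ^ (n + 2) = 3 ^ (n + 1) * 3 := by ring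
        rw [h4]
        exact mul_le_mul h3 (by linarith) (by linarith) (by positivity))
      (by linarith)
      (by linarith)
      (by
        rw [pow_succ] at hHj
        linarith)
      hmain
    have hp2 : GE n w' (β - a) H := h1 ι' n w' (β - a) H 2 le_rfl hb0 hGE
    have hp3 : GE n (Sum.elim (fun _ : Fin k => M) w') (a + (β - a)) H :=
      h2 (Fin k) ι' n _ w' a (β - a) H (by linarith) (by linarith) hp1 hp2
    refine ⟨Fin k ⊕ ι', inferInstance, Sum.elim (fun _ => M) w',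
      Sum.elim (fun _ => t ^ (n + 1)) s', ?_, ?_, ?_⟩
    · rwa [add_sub_cancel] at hp3
    · rintro (i | i)
      · exact hM
      · exact hemp i
    · rw [Fintype.sum_sum_type]
      simp only [Sum.elim_inl, Sum.elim_inr]
      rw [Finset.sum_const, Finset.card_univ, Fintype.card_fin, smul_eq_mul, hsum, hr']

theorem t_RECE (h1 : S_NODE) (h2 : S_PIECEE) : S_RECE := by
  intro n m g Λ T hn hm hg hΛ hcl β H r hβ hβ' hH hHT hr
  have hm1 : (1 : ℝ) ≤ m := by exact_mod_cast hm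
  have hH0 : 0 < 12 * (g + Λ) := by linarith
  obtain ⟨j, hj⟩ := pow_unbounded_of_one_lt (H / (12 * (g + Λ))) (one_lt_two : (1 : ℝ) < 2)
  rw [div_lt_iff₀ hH0] at hj
  exact rece_aux h1 h2 n m g Λ T hn hm hg hΛ hcl j β H r hβ hβ' hH hHT hj.le hr

end Pool.Agent.H980.BW
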